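import Mathlib

set_option autoImplicit false

open Filter Topology Finset
open scoped ENNReal

namespace Pool.Agent.H94.LSC

/-- the weights -/
noncomputable def w (s n : ℕ) : ℝ := ((n : ℝ) + 1) ^ s + (1 / 2) ^ (n + 2)

lemma w_pos (s n : ℕ) : 0 < w s n := by unfold w; positivity

/-- the sum of the fractional parts is less than one half -/
lemma frac_lt (M : ℕ) (S : Finset ℕ) (hS : S ⊆ range M) :
    ∑ n ∈ S, ((1 : ℝ) / 2) ^ (n + 2) < 1 / 2 := by
  have h1 : ∑ n ∈ S, ((1 : ℝ) / 2) ^ (n + 2) ≤ ∑ n ∈ range M, ((1 : ℝ) / 2) ^ (n + 2) :=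
    sum_le_sum_of_subset_of_nonneg hS fun _ _ _ => by positivity
  have h2 : ∀ M : ℕ, ∑ n ∈ range M, ((1 : ℝ) / 2) ^ (n + 2) = 1 / 2 - (1 / 2) ^ (M + 1) := by
    intro M
    induction M with
    | zero => norm_num
    | succ k ih => rw [sum_range_succ, ih]; ring
  rw [h2] at h1
  have h3 : (0 : ℝ) < (1 / 2) ^ (M + 1) := by positivity
  linarith

lemma frac_inj (M : ℕ) (S S' : Finset ℕ) (hS : S ⊆ range M) (hS' : S' ⊆ range M)
    (h : ∑ n ∈ S, ((1 : ℝ) / 2) ^ (n + 2) = ∑ n ∈ S', ((1 : ℝ) / 2) ^ (n + 2)) : S = S' := by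
  have inj : ∀ U : Finset ℕ, U ⊆ range M → Set.InjOn (fun n => M - n) (U : Set ℕ) := by
    intro U hU x hx y hy hxy
    have h1 := mem_range.1 (hU hx)
    have h2 := mem_range.1 (hU hy)
    simp only at hxy
    omega
  have key : ∀ U : Finset ℕ, U ⊆ range M →
      ((∑ i ∈ U.image (fun n => M - n), 2 ^ i : ℕ) : ℝ) =
        2 ^ (M + 2) * ∑ n ∈ U, ((1 : ℝ) / 2) ^ (n + 2) := by
    intro U hU
    rw [sum_image (inj U hU), mul_sum]
    push_cast
    refine sum_congr rfl fun n hn => ?_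
    have h1 := mem_range.1 (hU hn)
    have h2 : (2 : ℝ) ^ (M + 2) = 2 ^ (M - n) * 2 ^ (n + 2) := by
      rw [← pow_add]
      congr 1
      omega
    rw [h2, one_div, inv_pow]
    field_simp
  have h1 : (∑ i ∈ S.image (fun n => M - n), 2 ^ i : ℕ) = ∑ i ∈ S'.image (fun n => M - n), 2 ^ i := by
    have : ((∑ i ∈ S.image (fun n => M - n), 2 ^ i : ℕ) : ℝ) =
        ((∑ i ∈ S'.image (fun n => M - n), 2 ^ i : ℕ) : ℝ) := by
      rw [key S hS, key S' hS', h]
    exact_mod_cast this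
  have h2 : S.image (fun n => M - n) = S'.image (fun n => M - n) :=
    Finset.geomSum_injective le_rfl h1
  ext x
  constructor
  · intro hx
    have h3 : M - x ∈ S'.image (fun n => M - n) := by
      rw [← h2]; exact mem_image_of_mem _ hx
    obtain ⟨y, hy, hxy⟩ := mem_image.1 h3
    have h4 := mem_range.1 (hS hx)
    have h5 := mem_range.1 (hS' hy)
    have : y = x := by omega
    rwa [← this]
  · intro hx
    have h3 : M - x ∈ S.image (fun n => M - n) := by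
      rw [h2]; exact mem_image_of_mem _ hx
    obtain ⟨y, hy, hxy⟩ := mem_image.1 h3
    have h4 := mem_range.1 (hS' hx)
    have h5 := mem_range.1 (hS hy)
    have : y = x := by omega
    rwa [← this]

lemma sum_inj (s M : ℕ) (S S' : Finset ℕ) (hS : S ⊆ range M) (hS' : S' ⊆ range M)
    (h : ∑ n ∈ S, w s n = ∑ n ∈ S', w s n) : S = S' := by
  apply frac_inj M S S' hS hS'
  unfold w at h
  rw [sum_add_distrib, sum_add_distrib] at h
  have f0 : (0 : ℝ) ≤ ∑ n ∈ S, ((1 : ℝ) / 2) ^ (n + 2) := sum_nonneg fun _ _ => by positivity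
  have f0' : (0 : ℝ) ≤ ∑ n ∈ S', ((1 : ℝ) / 2) ^ (n + 2) := sum_nonneg fun _ _ => by positivity
  have f1 := frac_lt M S hS
  have f1' := frac_lt M S' hS'
  have e : ∀ U : Finset ℕ, ∑ n ∈ U, ((n : ℝ) + 1) ^ s = ((∑ n ∈ U, (n + 1) ^ s : ℕ) : ℝ) := by
    intro U; push_cast; rfl
  rw [e S, e S'] at h
  set I := ∑ n ∈ S, (n + 1) ^ s
  set I' := ∑ n ∈ S', (n + 1) ^ s
  have hI : I = I' := by
    rcases lt_trichotomy I I' with h1 | h1 | h1
    · have : (I : ℝ) + 1 ≤ I' := by exact_mod_cast h1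
      linarith
    · exact h1
    · have : (I' : ℝ) + 1 ≤ I := by exact_mod_cast h1
      linarith
  rw [hI] at h
  linarith

lemma sum_le (s M : ℕ) (S : Finset ℕ) (hS : S ⊆ range M) :
    ∑ n ∈ S, w s n ≤ 2 * (M : ℝ) ^ (s + 1) := by
  have h1 : ∀ n ∈ S, w s n ≤ 2 * (M : ℝ) ^ s := by
    intro n hn
    have h2 := mem_range.1 (hS hn)
    have hM : (1 : ℝ) ≤ M := by
      have : 1 ≤ M := by omega
      exact_mod_cast this
    have h3 : ((n : ℝ) + 1) ^ s ≤ (M : ℝ) ^ s := by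
      apply pow_le_pow_left₀ (by positivity)
      have : n + 1 ≤ M := h2
      exact_mod_cast this
    have h4 : ((1 : ℝ) / 2) ^ (n + 2) ≤ 1 := pow_le_one₀ (by norm_num) (by norm_num)
    have h5 : (1 : ℝ) ≤ (M : ℝ) ^ s := one_le_pow₀ hM
    unfold w
    linarith
  calc ∑ n ∈ S, w s n ≤ ∑ _n ∈ S, 2 * (M : ℝ) ^ s := sum_le_sum h1
    _ = S.card * (2 * (M : ℝ) ^ s) := by rw [sum_const, nsmul_eq_mul]
    _ ≤ M * (2 * (M : ℝ) ^ s) := by
        apply mul_le_mul_of_nonneg_right _ (by positivity)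
        have := card_le_card hS
        rw [card_range] at this
        exact_mod_cast this
    _ = 2 * (M : ℝ) ^ (s + 1) := by ring

/-- the eventual inequality -/
lemma growth (κ c a b : ℝ) (hκ : 0 < κ) (hc : 0 < c) (ha : 0 < a) (hb : 0 < b) :
    ∀ᶠ Λ : ℝ in atTop, 1 ≤ Λ ∧ 1 + (Λ / c) ^ (1 / a) ≤ Real.exp (Λ ^ b) ∧
      Λ ^ b + Real.log 2 ≤ (κ * (Λ ^ b) ^ (2 : ℕ) - 1) * Real.log 2 := by
  have hy : Tendsto (fun Λ : ℝ => Λ ^ b) atTop atTop := tendsto_rpow_atTop hb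
  have h2 : ∀ᶠ y : ℝ in atTop, y + Real.log 2 ≤ (κ * y ^ (2 : ℕ) - 1) * Real.log 2 := by
    have hl : 0 < Real.log 2 := Real.log_pos (by norm_num)
    filter_upwards [eventually_ge_atTop ((1 + 2 * Real.log 2) / (κ * Real.log 2)),
      eventually_ge_atTop 1] with y h3 h4
    rw [div_le_iff₀ (by positivity)] at h3
    have h5 : 1 + 2 * Real.log 2 ≤ y * (κ * Real.log 2) := h3
    nlinarith
  have h3 : ∀ᶠ Λ : ℝ in atTop, 1 + (Λ / c) ^ (1 / a) ≤ Real.exp (Λ ^ b) := by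
    have h4 : ∀ᶠ y : ℝ in atTop, ‖y ^ (1 / (a * b))‖ ≤ (1 / (2 * (1 / c) ^ (1 / a))) * ‖Real.exp (1 * y)‖ := by
      have := (isLittleO_rpow_exp_pos_mul_atTop (1 / (a * b)) (b := 1) one_pos)
      exact this.def (by positivity)
    have h5 : ∀ᶠ y : ℝ in atTop, 2 ≤ Real.exp y := by
      filter_upwards [eventually_ge_atTop 1] with y hy1
      have := Real.add_one_le_exp y
      linarith
    filter_upwards [hy.eventually h4, hy.eventually h5, eventually_ge_atTop 1] with Λ h6 h7 h8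
    have hΛ : 0 < Λ := by linarith
    have e1 : (Λ ^ b) ^ (1 / (a * b)) = Λ ^ (1 / a) := by
      rw [← Real.rpow_mul hΛ.le]
      congr 1
      field_simp
    rw [e1, Real.norm_of_nonneg (by positivity), Real.norm_of_nonneg (by positivity), one_mul] at h6
    have e2 : (Λ / c) ^ (1 / a) = Λ ^ (1 / a) * (1 / c) ^ (1 / a) := by
      rw [← Real.mul_rpow hΛ.le (by positivity)]
      congr 1
      field_simp
    have hcp : (0 : ℝ) < (1 / c) ^ (1 / a) := by positivity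
    have h9 : Λ ^ (1 / a) * (1 / c) ^ (1 / a) ≤ Real.exp (Λ ^ b) / 2 := by
      calc Λ ^ (1 / a) * (1 / c) ^ (1 / a)
          ≤ (1 / (2 * (1 / c) ^ (1 / a)) * Real.exp (Λ ^ b)) * (1 / c) ^ (1 / a) :=
            mul_le_mul_of_nonneg_right h6 hcp.le
        _ = Real.exp (Λ ^ b) / 2 := by field_simp
    rw [e2]
    linarith
  filter_upwards [h3, hy.eventually h2, eventually_ge_atTop 1] with Λ h4 h5 h6
  exact ⟨h6, h4, h5⟩

theorem stC (s : ℕ) (A r c a : ℝ) (L : ℕ → ℝ≥0∞) (hA : 0 < A) (hr : 0 < r) (hc : 0 < c)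
    (ha : 0 < a) (hL : ∀ k : ℕ, 1 ≤ k → ENNReal.ofReal (c * (k : ℝ) ^ a) ≤ L k) :
    ∃ b L0 : ℝ, 0 < b ∧ ∀ Λ : ℝ, L0 ≤ Λ → ∃ T : Finset ℝ,
    (∀ l ∈ T, 0 < l ∧ l ≤ Λ ∧ (∃ S : Finset ℕ, S.Nonempty ∧ l = A * (∑ n ∈ S, w s n) ^ r) ∧
      ∀ k : ℕ, 1 ≤ k → L k ≠ ENNReal.ofReal l) ∧ Real.exp (Λ ^ b) ≤ (T.card : ℝ) := by
  classical
  -- the exponents
  set θ : ℝ := 1 / (((s : ℝ) + 1) * r) with hθ
  have hθ0 : 0 < θ := by positivity
  set κ : ℝ := (1 / (A * 2 ^ r)) ^ θ with hκ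
  have hκ0 : 0 < κ := by positivity
  obtain ⟨L0, hL0⟩ := eventually_atTop.1 (growth κ c a (θ / 2) hκ0 hc ha (by positivity))
  refine ⟨θ / 2, L0, by positivity, fun Λ hΛ => ?_⟩
  obtain ⟨hΛ1, g1, g2⟩ := hL0 Λ hΛ
  have hΛ0 : 0 < Λ := by linarith
  have hsq : (Λ ^ (θ / 2)) ^ (2 : ℕ) = Λ ^ θ := by
    rw [← Real.rpow_natCast, ← Real.rpow_mul hΛ0.le]
    congr 1
    push_cast
    ring
  rw [hsq] at g2
  set X : ℝ := κ * Λ ^ θ with hX
  have hX0 : 0 ≤ X := by positivity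
  set M : ℕ := ⌊X⌋₊ with hM
  have hMX : (M : ℝ) ≤ X := Nat.floor_le hX0
  have hXM : X < M + 1 := Nat.lt_floor_add_one X
  -- the values
  set f : Finset ℕ → ℝ := fun S => A * (∑ n ∈ S, w s n) ^ r with hf
  set P : Finset (Finset ℕ) := (range M).powerset.erase ∅ with hP
  have hPs : ∀ S ∈ P, S.Nonempty ∧ S ⊆ range M := by
    intro S hS
    rw [hP, mem_erase, mem_powerset] at hS
    exact ⟨nonempty_iff_ne_empty.2 hS.1, hS.2⟩
  have hpos : ∀ S : Finset ℕ, S.Nonempty → 0 < ∑ n ∈ S, w s n := fun S hS =>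
    sum_pos (fun n _ => w_pos s n) hS
  have hfpos : ∀ S ∈ P, 0 < f S := by
    intro S hS
    have := hpos S (hPs S hS).1
    simp only [hf]
    positivity
  have hfle : ∀ S ∈ P, f S ≤ Λ := by
    intro S hS
    have h1 := sum_le s M S (hPs S hS).2
    have h2 : (M : ℝ) ^ (s + 1) ≤ X ^ (s + 1) := pow_le_pow_left₀ (by positivity) hMX _
    have h3 : X ^ (s + 1) = (Λ / (A * 2 ^ r)) ^ (1 / r) := by
      have e1 : X = (Λ / (A * 2 ^ r)) ^ θ := by
        rw [hX, hκ, ← Real.mul_rpow (by positivity) hΛ0.le]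
        congr 1
        ring
      rw [e1, ← Real.rpow_natCast, ← Real.rpow_mul (by positivity)]
      congr 1
      rw [hθ]
      push_cast
      field_simp
    have h4 : ∑ n ∈ S, w s n ≤ 2 * (Λ / (A * 2 ^ r)) ^ (1 / r) := by
      rw [← h3]
      linarith
    have h5 : (∑ n ∈ S, w s n) ^ r ≤ (2 * (Λ / (A * 2 ^ r)) ^ (1 / r)) ^ r :=
      Real.rpow_le_rpow (hpos S (hPs S hS).1).le h4 hr.le
    have h6 : (2 * (Λ / (A * 2 ^ r)) ^ (1 / r)) ^ r = Λ / A := by
      rw [Real.mul_rpow (by norm_num) (by positivity), ← Real.rpow_mul (by positivity),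
        one_div_mul_cancel hr.ne', Real.rpow_one]
      field_simp
    rw [h6] at h5
    have h7 : f S ≤ A * (Λ / A) := mul_le_mul_of_nonneg_left h5 hA.le
    rwa [mul_div_cancel₀ _ hA.ne'] at h7
  have hfinj : Set.InjOn f (P : Set (Finset ℕ)) := by
    intro S hS S' hS' h
    have h1 := hpos S (hPs S hS).1
    have h2 := hpos S' (hPs S' hS').1
    have h3 : (∑ n ∈ S, w s n) ^ r = (∑ n ∈ S', w s n) ^ r := mul_left_cancel₀ hA.ne' h
    have h4 : ∑ n ∈ S, w s n = ∑ n ∈ S', w s n := by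
      have := congrArg (fun x => x ^ (1 / r)) h3
      rwa [← Real.rpow_mul h1.le, ← Real.rpow_mul h2.le, mul_one_div_cancel hr.ne', Real.rpow_one,
        Real.rpow_one] at this
    exact sum_inj s M S S' (hPs S hS).2 (hPs S' hS').2 h4
  set V : Finset ℝ := P.image f with hV
  have hVcard : (V.card : ℝ) = 2 ^ M - 1 := by
    rw [hV, card_image_of_injOn hfinj, hP, card_erase_of_mem (empty_mem_powerset _), card_powerset,
      card_range]
    have : 1 ≤ 2 ^ M := Nat.one_le_two_pow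
    push_cast [Nat.cast_sub this]
    ring
  have hVp : ∀ l ∈ V, 0 < l ∧ l ≤ Λ ∧ ∃ S : Finset ℕ, S.Nonempty ∧ l = A * (∑ n ∈ S, w s n) ^ r := by
    intro l hl
    obtain ⟨S, hS, rfl⟩ := mem_image.1 hl
    exact ⟨hfpos S hS, hfle S hS, S, (hPs S hS).1, rfl⟩
  set T : Finset ℝ := V.filter (fun l => ∀ k : ℕ, 1 ≤ k → L k ≠ ENNReal.ofReal l) with hT
  set Bd : Finset ℝ := V.filter (fun l => ¬ ∀ k : ℕ, 1 ≤ k → L k ≠ ENNReal.ofReal l) with hBd
  have hsplit : T.card + Bd.card = V.card := card_filter_add_card_filter_not _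
  set K : ℕ := ⌊(Λ / c) ^ (1 / a)⌋₊ with hK
  have hBdK : Bd.card ≤ K := by
    have hex : ∀ l ∈ Bd, ∃ k : ℕ, 1 ≤ k ∧ L k = ENNReal.ofReal l := by
      intro l hl
      have := (mem_filter.1 hl).2
      push Not at this
      exact this
    choose! g hg using hex
    have hmap : ∀ l ∈ Bd, g l ∈ Icc 1 K := by
      intro l hl
      obtain ⟨h1, h2⟩ := hg l hl
      obtain ⟨h3, h4, -⟩ := hVp l (mem_filter.1 hl).1
      have h5 := hL (g l) h1
      rw [h2, ENNReal.ofReal_le_ofReal_iff h3.le] at h5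
      have h6 : ((g l : ℕ) : ℝ) ^ a ≤ Λ / c := by
        rw [le_div_iff₀ hc]
        linarith
      have h7 : ((g l : ℕ) : ℝ) ≤ (Λ / c) ^ (1 / a) := by
        have h8 := Real.rpow_le_rpow (by positivity) h6 (by positivity : (0 : ℝ) ≤ 1 / a)
        rwa [← Real.rpow_mul (Nat.cast_nonneg _), mul_one_div_cancel ha.ne', Real.rpow_one] at h8
      rw [mem_Icc]
      exact ⟨h1, Nat.le_floor h7⟩
    have hinj : Set.InjOn g (Bd : Set ℝ) := by
      intro l hl l' hl' h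
      have h1 := (hg l hl).2
      have h2 := (hg l' hl').2
      rw [h, h2] at h1
      have h3 := (hVp l (mem_filter.1 hl).1).1
      have h4 := (hVp l' (mem_filter.1 hl').1).1
      exact ((ENNReal.ofReal_eq_ofReal_iff h4.le h3.le).1 h1).symm
    have := card_le_card_of_injOn g hmap hinj
    rwa [Nat.card_Icc, Nat.add_sub_cancel] at this
  refine ⟨T, fun l hl => ?_, ?_⟩
  · obtain ⟨h1, h2, h3⟩ := hVp l (mem_filter.1 hl).1
    exact ⟨h1, h2, h3, (mem_filter.1 hl).2⟩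
  · have h1 : (T.card : ℝ) = 2 ^ M - 1 - Bd.card := by
      have : (T.card : ℝ) + Bd.card = V.card := by exact_mod_cast hsplit
      rw [hVcard] at this
      linarith
    have h2 : (Bd.card : ℝ) ≤ (Λ / c) ^ (1 / a) := by
      have h3 : (Bd.card : ℝ) ≤ K := by exact_mod_cast hBdK
      exact h3.trans (Nat.floor_le (by positivity))
    have h3 : 2 * Real.exp (Λ ^ (θ / 2)) ≤ 2 ^ M := by
      have e1 : (2 : ℝ) ^ M = Real.exp (M * Real.log 2) := by
        rw [mul_comm, Real.exp_mul, Real.exp_log (by norm_num), Real.rpow_natCast]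
      have e2 : 2 * Real.exp (Λ ^ (θ / 2)) = Real.exp (Λ ^ (θ / 2) + Real.log 2) := by
        rw [Real.exp_add, Real.exp_log (by norm_num)]
        ring
      rw [e1, e2]
      apply Real.exp_le_exp.2
      refine g2.trans ?_
      apply mul_le_mul_of_nonneg_right _ (Real.log_nonneg (by norm_num))
      linarith
    rw [h1]
    linarith

end Pool.Agent.H94.LSC
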