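import Mathlib

set_option autoImplicit false

open Filter Topology Finset

namespace Pool.Agent.H94.LSP

lemma digits_inj (b : ℕ) : ∀ (N a a' : ℕ), a < b ^ N → a' < b ^ N →
    (∀ i < N, a / b ^ i % b = a' / b ^ i % b) → a = a' := by
  intro N
  induction N with
  | zero => intro a a' h h' _; rw [pow_zero] at h h'; omega
  | succ N ih =>
    intro a a' h h' hd
    have h0 := hd 0 (Nat.succ_pos N)
    rw [pow_zero, Nat.div_one, Nat.div_one] at h0
    have e : a / b = a' / b := by
      refine ih (a / b) (a' / b) ?_ ?_ ?_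
      · apply Nat.div_lt_of_lt_mul
        rwa [pow_succ, mul_comm] at h
      · apply Nat.div_lt_of_lt_mul
        rwa [pow_succ, mul_comm] at h'
      · intro i hi
        have := hd (i + 1) (by omega)
        rwa [pow_succ, mul_comm, ← Nat.div_div_eq_div_mul, ← Nat.div_div_eq_div_mul] at this
    rw [← Nat.div_add_mod a b, ← Nat.div_add_mod a' b, e, h0]

/-- the block of an index -/
def blk (N n : ℕ) : ℕ := Nat.log (2 ^ N) (n + 1)

lemma blk_le {N : ℕ} (n : ℕ) : (2 ^ N) ^ blk N n ≤ n + 1 := Nat.pow_log_le_self _ (by omega)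

lemma lt_blk {N : ℕ} (hN : 2 ≤ N) (n : ℕ) : n + 1 < (2 ^ (blk N n + 1)) ^ N := by
  have h := Nat.lt_pow_succ_log_self (b := 2 ^ N) (Nat.one_lt_two_pow (by omega)) (n + 1)
  rw [← pow_mul, mul_comm, pow_mul]
  exact h

/-- the digits of an index -/
def dig (N n i : ℕ) : ℕ := (n + 1) / (2 ^ (blk N n + 1)) ^ i % 2 ^ (blk N n + 1)

lemma dig_lt (N n i : ℕ) : dig N n i < 2 ^ (blk N n + 1) := Nat.mod_lt _ (by positivity)

lemma exists_dig_ne {N : ℕ} (hN : 2 ≤ N) {m n : ℕ} (hb : blk N m = blk N n) (hmn : m ≠ n) :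
    ∃ i < N, dig N m i ≠ dig N n i := by
  by_contra hcon
  push Not at hcon
  apply hmn
  have h1 := lt_blk hN m
  have h2 := lt_blk hN n
  have := digits_inj (2 ^ (blk N n + 1)) N (m + 1) (n + 1) (by rwa [hb] at h1) h2 (by
    intro i hi
    have := hcon i hi
    unfold dig at this
    rwa [hb] at this)
  omega

/-- the coordinates of the points -/
noncomputable def co (N : ℕ) (c μ : ℝ) (n i : ℕ) : ℝ :=
  (if i = 0 then (2 * μ) ^ blk N n / 2 else 0) + 2 * c * μ ^ blk N n * (dig N n i : ℝ)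

/-- the points -/
noncomputable def pt (N : ℕ) (c μ : ℝ) (n : ℕ) : EuclideanSpace ℝ (Fin N) :=
  WithLp.toLp 2 fun i => co N c μ n i

lemma norm_le_sum {N : ℕ} (x : EuclideanSpace ℝ (Fin N)) : ‖x‖ ≤ ∑ i, |x i| := by
  rw [EuclideanSpace.norm_eq]
  apply Real.sqrt_le_iff.2
  refine ⟨sum_nonneg fun i _ => abs_nonneg _, ?_⟩
  simp only [Real.norm_eq_abs]
  exact Finset.sum_sq_le_sq_sum_of_nonneg fun i _ => abs_nonneg _

theorem stP (N : ℕ) (hN : 2 ≤ N) (β : ℝ) (hβ : 1 / (N : ℝ) < β) :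
    ∃ (c : ℝ) (x : ℕ → EuclideanSpace ℝ (Fin N)), 0 < c ∧
    (∀ m n : ℕ, m < n → c * ((m : ℝ) + 1) ^ (-β) + c * ((n : ℝ) + 1) ^ (-β) ≤ dist (x m) (x n)) ∧
    (∀ n : ℕ, ‖x n‖ + c * ((n : ℝ) + 1) ^ (-β) < 1) ∧
    ∀ δ : ℝ, 0 < δ → ∃ M : ℕ, ∀ n : ℕ, M ≤ n → ‖x n‖ + c * ((n : ℝ) + 1) ^ (-β) < δ := by
  have hN' : (2 : ℝ) ≤ N := by exact_mod_cast hN
  have hN0 : (0 : ℝ) < N := by linarith
  have hβ1 : 1 < N * β := by
    rw [div_lt_iff₀ hN0] at hβ; linarith
  have hβ0 : 0 < β := lt_trans (by positivity) hβ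
  set μ : ℝ := (2 : ℝ) ^ (-(N * β)) with hμ
  have hμ0 : 0 < μ := by positivity
  set l : ℝ := 2 * μ with hl
  have hl0 : 0 < l := by positivity
  have hl1 : l < 1 := by
    have e : l = (2 : ℝ) ^ (1 - N * β) := by
      rw [hl, hμ, sub_eq_add_neg, Real.rpow_add (by norm_num), Real.rpow_one]
    rw [e]
    exact Real.rpow_lt_one_of_one_lt_of_neg (by norm_num) (by linarith)
  have hμl : μ ≤ l := by rw [hl]; linarith
  set c : ℝ := (1 - l) / (16 * N) with hc
  have hc0 : 0 < c := by
    have : 0 < 1 - l := by linarith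
    positivity
  have hcN : 16 * (c * N) = 1 - l := by
    rw [hc]; field_simp
  have hc2 : 32 * c ≤ 1 - l := by nlinarith
  -- the radii
  have hrad : ∀ n : ℕ, ((n : ℝ) + 1) ^ (-β) ≤ μ ^ blk N n := by
    intro n
    have h1 : ((2 : ℝ) ^ N) ^ blk N n ≤ (n : ℝ) + 1 := by exact_mod_cast blk_le (N := N) n
    have h2 : (((2 : ℝ) ^ N) ^ blk N n) ^ (-β) = μ ^ blk N n := by
      rw [← Real.rpow_natCast ((2 : ℝ) ^ N), ← Real.rpow_natCast 2 N, ← Real.rpow_mul (by norm_num),
        ← Real.rpow_mul (by norm_num), hμ, ← Real.rpow_natCast, ← Real.rpow_mul (by norm_num)]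
      congr 1
      ring
    rw [← h2]
    exact Real.rpow_le_rpow_of_nonpos (by positivity) h1 (by linarith)
  have hrpos : ∀ n : ℕ, 0 < ((n : ℝ) + 1) ^ (-β) := fun n => by positivity
  have hμpl : ∀ j : ℕ, μ ^ j ≤ l ^ j := fun j => pow_le_pow_left₀ hμ0.le hμl j
  -- the digits part
  have hdig : ∀ n i : ℕ, 0 ≤ 2 * c * μ ^ blk N n * (dig N n i : ℝ) ∧
      2 * c * μ ^ blk N n * (dig N n i : ℝ) ≤ 4 * c * l ^ blk N n := by
    intro n i
    refine ⟨by positivity, ?_⟩
    have h1 : (dig N n i : ℝ) ≤ 2 ^ (blk N n + 1) := by exact_mod_cast (dig_lt N n i).le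
    calc 2 * c * μ ^ blk N n * (dig N n i : ℝ) ≤ 2 * c * μ ^ blk N n * 2 ^ (blk N n + 1) :=
          mul_le_mul_of_nonneg_left h1 (by positivity)
      _ = 4 * c * l ^ blk N n := by rw [hl, mul_pow, pow_succ]; ring
  -- the norm
  have hnorm : ∀ n : ℕ, ‖pt N c μ n‖ + c * ((n : ℝ) + 1) ^ (-β) < l ^ blk N n := by
    intro n
    have h1 : ∀ i : Fin N, |pt N c μ n i| ≤
        (if (i : ℕ) = 0 then l ^ blk N n / 2 else 0) + 4 * c * l ^ blk N n := by
      intro i
      have e : pt N c μ n i = co N c μ n i := rfl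
      rw [e, co, ← hl]
      have h2 := hdig n i
      have h3 : 0 ≤ (if (i : ℕ) = 0 then l ^ blk N n / 2 else 0) := by
        split_ifs <;> positivity
      rw [abs_of_nonneg (by linarith [h2.1])]
      linarith [h2.2]
    have h2 : ∑ i : Fin N, (if (i : ℕ) = 0 then l ^ blk N n / 2 else 0) = l ^ blk N n / 2 := by
      rw [Finset.sum_eq_single (⟨0, by omega⟩ : Fin N)]
      · simp
      · intro b _ hb
        rw [if_neg]
        intro h
        exact hb (Fin.ext h)
      · intro h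
        exact absurd (Finset.mem_univ _) h
    have h3 : ∑ i : Fin N, |pt N c μ n i| ≤ l ^ blk N n / 2 + N * (4 * c * l ^ blk N n) := by
      calc ∑ i : Fin N, |pt N c μ n i| ≤ ∑ i : Fin N,
            ((if (i : ℕ) = 0 then l ^ blk N n / 2 else 0) + 4 * c * l ^ blk N n) :=
            sum_le_sum fun i _ => h1 i
        _ = _ := by rw [sum_add_distrib, h2]; simp
    have h4 := norm_le_sum (pt N c μ n)
    have h5 : c * ((n : ℝ) + 1) ^ (-β) ≤ c * l ^ blk N n :=
      mul_le_mul_of_nonneg_left ((hrad n).trans (hμpl _)) hc0.le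
    have h6 : 0 < l ^ blk N n := by positivity
    have h7 : l ^ blk N n / 2 + N * (4 * c * l ^ blk N n) + c * l ^ blk N n < l ^ blk N n := by
      have h8 : N * (4 * c * l ^ blk N n) = (1 - l) / 4 * l ^ blk N n := by
        rw [← hcN]; ring
      have h9 : c * l ^ blk N n ≤ 1 / 32 * l ^ blk N n :=
        mul_le_mul_of_nonneg_right (by linarith) h6.le
      have h10 : 0 < l * l ^ blk N n := by positivity
      rw [h8]
      linarith
    linarith
  refine ⟨c, pt N c μ, hc0, ?_, ?_, ?_⟩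
  · -- disjointness
    have main : ∀ m n : ℕ, m ≠ n → blk N m ≤ blk N n →
        c * ((m : ℝ) + 1) ^ (-β) + c * ((n : ℝ) + 1) ^ (-β) ≤ dist (pt N c μ m) (pt N c μ n) := by
      intro m n hmn hle
      have hco : ∀ i : ℕ, i < N → |co N c μ m i - co N c μ n i| ≤ dist (pt N c μ m) (pt N c μ n) := by
        intro i hi
        rw [dist_eq_norm]
        exact PiLp.norm_apply_le (pt N c μ m - pt N c μ n) ⟨i, hi⟩
      rcases hle.eq_or_lt with hb | hb
      · obtain ⟨i, hi, hne⟩ := exists_dig_ne hN hb hmn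
        refine le_trans ?_ (hco i hi)
        have e : co N c μ m i - co N c μ n i =
            2 * c * μ ^ blk N n * ((dig N m i : ℝ) - dig N n i) := by
          unfold co
          rw [hb]
          ring
        have h1 : (1 : ℝ) ≤ |(dig N m i : ℝ) - dig N n i| := by
          have h2 : (1 : ℤ) ≤ |(dig N m i : ℤ) - dig N n i| := by
            apply Int.one_le_abs
            intro h
            apply hne
            omega
          exact_mod_cast h2
        rw [e, abs_mul, abs_of_pos (show 0 < 2 * c * μ ^ blk N n by positivity)]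
        have h3 := mul_le_mul_of_nonneg_left (hrad m) hc0.le
        have h4 := mul_le_mul_of_nonneg_left (hrad n) hc0.le
        rw [hb] at h3
        have h5 := mul_le_mul_of_nonneg_left h1 (show 0 ≤ 2 * c * μ ^ blk N n by positivity)
        linarith
      · refine le_trans ?_ (hco 0 (by omega))
        have e : ∀ k : ℕ, co N c μ k 0 = l ^ blk N k / 2 + 2 * c * μ ^ blk N k * (dig N k 0 : ℝ) := by
          intro k
          unfold co
          rw [if_pos rfl]
        rw [e, e]
        have h1 := hdig m 0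
        have h2 := hdig n 0
        have h3 : l ^ blk N n ≤ l * l ^ blk N m := by
          rw [← pow_succ']
          exact pow_le_pow_of_le_one hl0.le hl1.le hb
        have h3' : l ^ blk N n ≤ l ^ blk N m := pow_le_pow_of_le_one hl0.le hl1.le hle
        have h4 := mul_le_mul_of_nonneg_left ((hrad m).trans (hμpl _)) hc0.le
        have h5 := mul_le_mul_of_nonneg_left ((hrad n).trans (hμpl _)) hc0.le
        have h6 := mul_le_mul_of_nonneg_left h3' hc0.le
        have h7 : 0 < l ^ blk N m := by positivity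
        have h8 := mul_le_mul_of_nonneg_right hc2 h7.le
        refine le_trans ?_ (le_abs_self _)
        nlinarith [h1.1, h2.2, mul_pos hc0 h7]
    intro m n hmn
    rcases le_total (blk N m) (blk N n) with h | h
    · exact main m n hmn.ne h
    · rw [dist_comm, add_comm]
      exact main n m hmn.ne' h
  · intro n
    exact (hnorm n).trans_le (pow_le_one₀ hl0.le hl1.le)
  · intro δ hδ
    obtain ⟨J, hJ⟩ := exists_pow_lt_of_lt_one hδ hl1
    refine ⟨(2 ^ N) ^ J, fun n hn => (hnorm n).trans_le (le_trans ?_ hJ.le)⟩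
    apply pow_le_pow_of_le_one hl0.le hl1.le
    exact Nat.le_log_of_pow_le (Nat.one_lt_two_pow (by omega)) (by omega)

end Pool.Agent.H94.LSP
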